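import Pool.Agent.Helper10.Fam.Stmts

set_option autoImplicit false

/-! # Module EXCH: exchange lemma for the bisection of a cone -/

namespace Pool.Agent.Helper10.Fam

lemma exch_setAt {α : Type} : ∀ (L : List α) (j : ℕ) (b : α), getAt L j = some b →
    setAt L j b = L
  | [], _, _, h => by simp [getAt] at h
  | a :: s, 0, b, h => by
    simp only [getAt, Option.some.injEq] at h
    simp [setAt, h]
  | a :: s, n + 1, b, h => by
    simp only [getAt] at h
    simp [setAt, exch_setAt s n b h]

lemma exch_one : ∀ (L : List Vr) (j : ℕ) (b : Vr) (y : ℕ → ℝ), InCone L y →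
    getAt L j = some b → ∃ (t' : ℝ) (z : ℕ → ℝ), 0 ≤ t' ∧
      (∀ i, y i = t' * fn b.v i + z i) ∧
      ∀ (P : Vr) (s : ℝ), 0 ≤ s → ∀ x : ℕ → ℝ, (∀ i, x i = s * fn P.v i + z i) →
        InCone (setAt L j P) x
  | [], j, b, y, _, h => by simp [getAt] at h
  | a :: L, 0, b, y, hy, h => by
    simp only [getAt, Option.some.injEq] at h
    subst h
    cases hy with
    | cons _ _ t _ y' ht hy' he =>
      exact ⟨t, y', ht, he, fun P s hs x hx => InCone.cons P L s x y' hs hy' hx⟩
  | a :: L, j + 1, b, y, hy, h => by
    simp only [getAt] at h
    cases hy with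
    | cons _ _ t _ y' ht hy' he =>
      obtain ⟨t', z, ht', hz, hP⟩ := exch_one L j b y' hy' h
      refine ⟨t', fun i => t * fn a.v i + z i, ht', fun i => ?_, fun P s hs x hx => ?_⟩
      · rw [he i, hz i]; ring
      · exact InCone.cons a (setAt L j P) t x (fun i => s * fn P.v i + z i) ht
          (hP P s hs _ fun i => rfl) fun i => by rw [hx i]; ring

/-- the case of the head -/
lemma exch_head (L : List Vr) (j : ℕ) (al be : ℝ) (a b P : Vr) (t : ℝ) (x y : ℕ → ℝ)
    (ht : 0 ≤ t) (hy : InCone L y) (he : ∀ i, x i = t * fn a.v i + y i)
    (hb : getAt L j = some b) (hal : 1 ≤ al) (hbe : 1 ≤ be)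
    (hP : ∀ k, fn P.v k = al * fn a.v k + be * fn b.v k) :
    InCone (P :: L) x ∨ InCone (a :: setAt L j P) x := by
  obtain ⟨t', z, ht', hz, hQ⟩ := exch_one L j b y hy hb
  have hal0 : 0 < al := by linarith
  have hbe0 : 0 < be := by linarith
  by_cases hc : be * t ≤ al * t'
  · left
    have h1 : 0 ≤ t' - be * t / al := by
      rw [sub_nonneg, div_le_iff₀ hal0]; linarith
    refine InCone.cons P L (t / al) x (fun i => (t' - be * t / al) * fn b.v i + z i)
      (by positivity) ?_ fun i => ?_
    · have := hQ b (t' - be * t / al) h1 _ fun i => rfl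
      rwa [exch_setAt L j b hb] at this
    · rw [he i, hz i, hP i]
      field_simp
      ring
  · right
    push Not at hc
    have h1 : 0 ≤ t - al * t' / be := by
      rw [sub_nonneg, div_le_iff₀ hbe0]; linarith
    refine InCone.cons a (setAt L j P) (t - al * t' / be) x (fun i => t' / be * fn P.v i + z i)
      h1 (hQ P (t' / be) (by positivity) _ fun i => rfl) fun i => ?_
    rw [he i, hz i, hP i]
    field_simp
    ring

theorem st_EXCH : ST_EXCH := by
  intro L
  induction L with
  | nil =>
    intro i j al be a b P x hx hij ha hb hal hbe hP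
    simp [getAt] at ha
  | cons v L ih =>
    intro i j al be a b P x hx hij ha hb hal hbe hP
    cases hx with
    | cons _ _ t _ y ht hy he =>
      have hal' : (1 : ℝ) ≤ (al : ℝ) := by exact_mod_cast hal
      have hbe' : (1 : ℝ) ≤ (be : ℝ) := by exact_mod_cast hbe
      rcases i with _ | i
      · rcases j with _ | j
        · exact absurd rfl hij
        · simp only [getAt, Option.some.injEq] at ha hb
          subst ha
          have := exch_head L j al be v b P t x y ht hy he hb hal' hbe' hP
          simpa [setAt] using this
      · rcases j with _ | j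
        · simp only [getAt, Option.some.injEq] at ha hb
          subst hb
          have := exch_head L i be al v a P t x y ht hy he ha hbe' hal'
            (fun k => by rw [hP k]; ring)
          simpa [setAt] using this.symm
        · simp only [getAt] at ha hb
          rcases ih i j al be a b P y hy (fun h => hij (by rw [h])) ha hb hal hbe hP with h | h
          · left
            exact InCone.cons v (setAt L i P) t x y ht h he
          · right
            exact InCone.cons v (setAt L j P) t x y ht h he

end Pool.Agent.Helper10.Fam
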