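import Pool.Agent.Helper10.Fam.Stmts

set_option autoImplicit false

/-! # Module UPC: Minkowski in a cone -/

namespace Pool.Agent.Helper10.Fam

lemma upc_cs {α : Type} (A B : α → ℝ) : ∀ l : List α,
    (l.map fun w => A w * B w).sum ^ 2 ≤
      (l.map fun w => A w ^ 2).sum * (l.map fun w => B w ^ 2).sum
  | [] => by simp
  | w :: l => by
    have ih := upc_cs A B l
    have hP : 0 ≤ (l.map fun w => A w ^ 2).sum :=
      List.sum_nonneg fun a ha => by
        obtain ⟨w, -, rfl⟩ := List.mem_map.1 ha
        positivity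
    have hR : 0 ≤ (l.map fun w => B w ^ 2).sum :=
      List.sum_nonneg fun a ha => by
        obtain ⟨w, -, rfl⟩ := List.mem_map.1 ha
        positivity
    simp only [List.map_cons, List.sum_cons]
    generalize (l.map fun w => A w * B w).sum = X at *
    generalize (l.map fun w => A w ^ 2).sum = P at *
    generalize (l.map fun w => B w ^ 2).sum = R at *
    have h1 : (2 * A w * B w * X) ^ 2 ≤ (A w ^ 2 * R + B w ^ 2 * P) ^ 2 := by
      have h2 : (2 * A w * B w * X) ^ 2 = 4 * (A w ^ 2 * B w ^ 2) * X ^ 2 := by ring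
      have h3 : 4 * (A w ^ 2 * B w ^ 2) * X ^ 2 ≤ 4 * (A w ^ 2 * B w ^ 2) * (P * R) :=
        mul_le_mul_of_nonneg_left ih (by positivity)
      have h4 : (A w ^ 2 * R + B w ^ 2 * P) ^ 2 - 4 * (A w ^ 2 * B w ^ 2) * (P * R) =
        (A w ^ 2 * R - B w ^ 2 * P) ^ 2 := by ring
      have h5 := sq_nonneg (A w ^ 2 * R - B w ^ 2 * P)
      linarith
    have h6 := abs_le_of_sq_le_sq h1 (by positivity)
    have h7 := (abs_le.1 h6).2
    have h8 : (A w * B w + X) ^ 2 = A w ^ 2 * B w ^ 2 + 2 * A w * B w * X + X ^ 2 := by ring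
    have h9 : (A w ^ 2 + P) * (B w ^ 2 + R) =
      A w ^ 2 * B w ^ 2 + (A w ^ 2 * R + B w ^ 2 * P) + P * R := by ring
    rw [h8, h9]
    linarith

lemma upc_expand {α : Type} (A B : α → ℝ) (t : ℝ) : ∀ l : List α,
    (l.map fun w => (t * A w + B w) ^ 2).sum = t ^ 2 * (l.map fun w => A w ^ 2).sum +
      2 * t * (l.map fun w => A w * B w).sum + (l.map fun w => B w ^ 2).sum
  | [] => by simp
  | w :: l => by
    simp only [List.map_cons, List.sum_cons, upc_expand A B t l]
    ring

lemma upc_le {α : Type} (f g : α → ℝ) (h : ∀ w, f w ≤ g w) : ∀ l : List α,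
    (l.map f).sum ≤ (l.map g).sum
  | [] => by simp
  | w :: l => by
    simp only [List.map_cons, List.sum_cons]
    exact add_le_add (h w) (upc_le f g h l)

lemma upc_nonneg : ∀ (L : List Vr) (y : ℕ → ℝ), InCone L y → ∀ i, 0 ≤ y i := by
  intro L y h
  induction h with
  | nil x h => intro i; rw [h i]
  | cons v L t x y ht _ he ih =>
    intro i
    rw [he i]
    have h1 : 0 ≤ fn v.v i := by unfold fn; positivity
    have h2 := ih i
    positivity

theorem st_UPC (hA : ST_LSTA) (hC : ST_LSTC) : ST_UPC := by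
  intro D x hd hx W X M C ka hM hka L y hy
  have hdR : (0 : ℝ) < (D.d : ℝ) := by exact_mod_cast hd
  induction hy with
  | nil y h =>
    intro _ _
    refine ⟨0, le_rfl, ?_, ?_⟩
    · have h0 : ∀ w : List ℕ, dx w y = 0 := by
        intro w
        have h1 : y = fun i => 0 * y i := by funext i; rw [h i]; ring
        rw [h1, hA.dx_smul]
        ring
      have h1 : (W.map fun w => (max 0 (C * 0 - dx w y)) ^ 2).sum = 0 := by
        apply List.sum_eq_zero
        intro a ha
        obtain ⟨w, -, rfl⟩ := List.mem_map.1 ha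
        simp [h0 w]
      rw [h1]
      simp
    · have h1 : y = fun i => 0 * y i := by funext i; rw [h i]; ring
      rw [h1, hC.bl_smul_left]
      simp
  | cons v L t y y' ht hy' he ih =>
    intro h1 h2
    obtain ⟨S', hS', h3, h4⟩ := ih (fun w hw => h1 w (List.mem_cons_of_mem _ hw))
      (fun w hw => h2 w (List.mem_cons_of_mem _ hw))
    have hv1 := h1 v List.mem_cons_self
    have hv2 := h2 v List.mem_cons_self
    have hyf : y = fun i => t * fn v.v i + y' i := funext he
    have hs : (0 : ℝ) ≤ (v.s : ℝ) := Nat.cast_nonneg _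
    have hfn : ∀ i, 0 ≤ fn v.v i := fun i => by unfold fn; positivity
    have hbl0 : 0 ≤ bl D.H x (fn v.v) := hC.bl_nonneg _ _ _ hx.nn hfn
    have hQ' : 0 ≤ bl D.H x y' / D.d :=
      div_nonneg (hC.bl_nonneg _ _ _ hx.nn (upc_nonneg L y' hy')) hdR.le
    have hq : Real.sqrt (bl D.H (fn v.v) (fn v.v) / D.d) ≤ bl D.H x (fn v.v) / D.d := by
      rw [Real.sqrt_le_left (div_nonneg hbl0 hdR.le), div_pow, div_le_div_iff₀ hdR (by positivity)]
      have := hx.rcs (fn v.v)
      nlinarith
    have hq0 := Real.sqrt_nonneg (bl D.H (fn v.v) (fn v.v) / D.d)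
    have hQ : bl D.H x y / D.d = t * (bl D.H x (fn v.v) / D.d) + bl D.H x y' / D.d := by
      rw [hyf, hC.bl_add_right, hC.bl_smul_right]
      ring
    have hdx : ∀ w : List ℕ, dx w y = t * dx w (fn v.v) + dx w y' := by
      intro w
      rw [hyf, hA.dx_add, hA.dx_smul]
    refine ⟨t * v.s + S', by positivity, ?_, ?_⟩
    · have hle : (W.map fun w => (max 0 (C * (t * v.s + S') - dx w y)) ^ 2).sum ≤
          (W.map fun w => (t * max 0 (C * v.s - dx w (fn v.v)) +
            max 0 (C * S' - dx w y')) ^ 2).sum := by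
        apply upc_le
        intro w
        have h5 : max 0 (C * (t * v.s + S') - dx w y) ≤
            t * max 0 (C * v.s - dx w (fn v.v)) + max 0 (C * S' - dx w y') := by
          apply max_le
          · positivity
          · have h6 : C * v.s - dx w (fn v.v) ≤ max 0 (C * v.s - dx w (fn v.v)) := le_max_right _ _
            have h7 : C * S' - dx w y' ≤ max 0 (C * S' - dx w y') := le_max_right _ _
            have h8 := mul_le_mul_of_nonneg_left h6 ht
            rw [hdx w]
            linarith
        exact pow_le_pow_left₀ (le_max_left _ _) h5 2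
      refine hle.trans ?_
      rw [upc_expand]
      have hcs := upc_cs (fun w => max 0 (C * (v.s : ℝ) - dx w (fn v.v)))
        (fun w => max 0 (C * S' - dx w y')) W
      have hP0 : 0 ≤ (W.map fun w => (max 0 (C * (v.s : ℝ) - dx w (fn v.v))) ^ 2).sum :=
        List.sum_nonneg fun a ha => by
          obtain ⟨w, -, rfl⟩ := List.mem_map.1 ha
          positivity
      have hR0 : 0 ≤ (W.map fun w => (max 0 (C * S' - dx w y')) ^ 2).sum :=
        List.sum_nonneg fun a ha => by
          obtain ⟨w, -, rfl⟩ := List.mem_map.1 ha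
          positivity
      rw [hQ]
      generalize (W.map fun w => (max 0 (C * (v.s : ℝ) - dx w (fn v.v))) *
        (max 0 (C * S' - dx w y'))).sum = E at *
      generalize (W.map fun w => (max 0 (C * (v.s : ℝ) - dx w (fn v.v))) ^ 2).sum = P at *
      generalize (W.map fun w => (max 0 (C * S' - dx w y')) ^ 2).sum = R at *
      generalize Real.sqrt (bl D.H (fn v.v) (fn v.v) / D.d) = q at *
      generalize bl D.H x (fn v.v) / D.d = qq at *
      generalize bl D.H x y' / D.d = Q' at *
      generalize (v.s : ℝ) = s at *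
      have hE2 : E ^ 2 ≤ (M * (s * Q' + S' * q) / 2) ^ 2 := by
        have h5 : P * R ≤ (M * q * s) * (M * S' * Q') :=
          mul_le_mul hv1 h3 hR0 (by positivity)
        have h6 : (M * (s * Q' + S' * q) / 2) ^ 2 - (M * q * s) * (M * S' * Q') =
          (M * (s * Q' - S' * q) / 2) ^ 2 := by ring
        have h7 := sq_nonneg (M * (s * Q' - S' * q) / 2)
        linarith
      have hE : E ≤ M * (s * Q' + S' * q) / 2 :=
        (abs_le.1 (abs_le_of_sq_le_sq hE2 (by positivity))).2
      have e1 : t ^ 2 * P ≤ t ^ 2 * (M * q * s) := mul_le_mul_of_nonneg_left hv1 (by positivity)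
      have e2 : 2 * t * E ≤ 2 * t * (M * (s * Q' + S' * q) / 2) :=
        mul_le_mul_of_nonneg_left hE (by positivity)
      have e3 : t ^ 2 * (M * q * s) + 2 * t * (M * (s * Q' + S' * q) / 2) + M * S' * Q' =
        M * (t * s + S') * (t * q + Q') := by ring
      have e4 : M * (t * s + S') * (t * q + Q') ≤ M * (t * s + S') * (t * qq + Q') := by
        apply mul_le_mul_of_nonneg_left _ (by positivity)
        have := mul_le_mul_of_nonneg_left hq ht
        linarith
      linarith
    · rw [hyf, hC.bl_add_left, hC.bl_smul_left]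
      have := mul_le_mul_of_nonneg_left hv2 ht
      nlinarith

end Pool.Agent.Helper10.Fam
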